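import Pool.Agent.Run7.h884.PS.Main

/-!
# Peak sets for analytic Lipschitz classes need not be zero sets of the Gevrey class

For every `0 < α < 1` there is a countable closed subset of the unit circle which is a peak set
for `A_α` (analytic in the disc, Hölder of order `α` on the circle) and is not a zero set for the
Gevrey class `G_α`. So the equality of the two families of closed sets fails for every `α < 1`.

The set consists of the point `1` and of nodes accumulating at `1`, in clusters: at the distance
`X = 2^(-k)` from `1` there are nodes of spacing `G = Λ (k+1)^(1/α) X^(1/α)` on an arc of length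
about `X/8`. The integral of `dist(·, E)^(-α)` over the circle diverges, like the harmonic series,
and this excludes nonzero Gevrey functions flat on the set (by the Jensen formula). The peak
function is `1 - 1/(2g)` with `g(z) = 1/(1-z) + Σ m_j (1/(1 - conj ζ_j z) + 1/(1 + t_j - conj ζ_j z))`,
`m_j = X_j^(1/α - 1)`, `t_j = X_j^(1/α)`: the total mass of the nodes is finite because the big mass
at `1` supplies the modulus of `g` between the nodes, and the second pole of each node keeps `g`
away from zero where the field of the node balances the field of the mass at `1`.
-/

namespace Pool.Agent.Results.MP_129fce_an.PeakNotGevreyZero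

/-- **For every `0 < α < 1` some countable closed subset of the unit circle is a peak set for `A_α`
but is not a zero set for the Gevrey class `G_α`.** -/
theorem result : ∀ α : ℝ, 0 < α → α < 1 →
    ∃ E : Set ℂ, E.Countable ∧ H884.PS.IsPeakSet α E ∧ ¬ H884.PS.IsZeroSet α E := by
  intro α hα0 hα1
  exact ⟨(H884.PS.sys hα0 hα1).E, H884.PS.E_countable hα0 hα1,
    H884.PS.Sys.peak hα0 hα1 (H884.PS.E_compact hα0 hα1).isClosed,
    H884.PS.not_zeroSet hα0 hα1⟩

end Pool.Agent.Results.MP_129fce_an.PeakNotGevreyZero
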